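import Pool.Agent.N892.AC.Ae
import Pool.Agent.Results.MP_fe58d8_pr.NaturalCurve
import Pool.Agent.Results.MP_fe58d8_pr.UniformDimension
import Pool.Agent.Results.MP_fe58d8_pr.UniformMeasure

/-!
# Intersections of the scaling limits of the exploration path with all affine copies of a set

Critical bond percolation on `δ ℤ²` (the FK model with `q = 1`) in a rectangle
`D = (-A, B) × (0, H)`, with the counterclockwise boundary arc from `a = t + i H` to `b = 0` wired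
and the other one dual-wired. `Rect.law` is the law of the exploration path from `a` to `b` (as a
curve with constant speed) and of its natural time. Weak limits exist along a subsequence of every
sequence of meshes.

For every weak limit and every set `S` which is regular with exponent `a ∈ [1/2, 2)` (`Reg`:
quasi-Assouad dimension at most `a`, uniformly in space), almost surely, simultaneously for ALL
affine bijections `φ` of the plane: the Hausdorff and the packing dimension of the intersection of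
the path with `φ(S)` inside `D` are at most `a - 1/4`, and those of the set of times at which the
path is in `φ(S)` inside `D` are at most `(4/7) (a - 1/4)`.

The traces of the scaling limits (in an arbitrary rectangle, along an arbitrary sequence of meshes)
are regular with exponent `7/4`; hence for two independent scaling limits, almost surely, for all
affine bijections `φ` the intersection of the first one with the image of the second one under `φ`
has Hausdorff and packing dimension at most `3/2`.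

The same holds for every family of sets of finite entropy which are uniformly regular (`Ent`).

Definitions: `Reg` and `aff` in `Pool.Agent.N892.AC.Aff`, `Ent` in `Pool.Agent.N892.AC.Fam`,
`IsLimit` in `Pool.Agent.N892.AC.Ae`, `packDim` (with `upperBoxDim`, `CovBy`) in
`Pool.Agent.N892.UP.Defs`; for the exploration path, `Pool.Agent.H984R4.NP.Model` (`Rect`, `pos`,
`clamp`, `pl`, `X`, `Rect.D`, `Rect.dm`, `Rect.curve`, `Rect.time`, `Rect.law`),
`Pool.Agent.H984R4.NP.Defs` (`Dm`, `Dm.edges`, `Dm.wir`, `Dm.cfg`, `Dm.walk`, `Dm.len`) and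
`Pool.Agent.H984R3.Per.Defs` (states, `ae`, `mv`, `rt`, `nxt`, `orb`).
-/

set_option autoImplicit false

namespace Pool.Agent.Results.MP_b3e76a_pr.AllAffineCopies

open H984N MeasureTheory Filter Topology Set
open Pool.Agent.N892.AC
open Pool.Agent.N892.UP (packDim)
open scoped ENNReal NNReal

/-- The bounds for the intersection with `S` in `R.D`. -/
def Sect (R : Rect) (f : C(unitInterval, ℂ)) (a : ℝ) (S : Set ℂ) : Prop :=
  (dimH {s : unitInterval | f s ∈ S ∩ R.D} ≤ ENNReal.ofReal (4/7 * (a - 1/4)) ∧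
    packDim {s : unitInterval | f s ∈ S ∩ R.D} ≤ ENNReal.ofReal (4/7 * (a - 1/4))) ∧
  (dimH (range f ∩ (S ∩ R.D)) ≤ ENNReal.ofReal (a - 1/4) ∧
    packDim (range f ∩ (S ∩ R.D)) ≤ ENNReal.ofReal (a - 1/4))

theorem sect_of {R : Rect} {f : C(unitInterval, ℂ)} {𝓢 : Set (Set ℂ)} {a : ℝ}
    (hG : Good R 𝓢 a f) (ha : 1/2 < a)
    (hun : ∀ E : Set unitInterval, dimH (f '' E) = 7 / 4 * dimH E)
    (hup : ∀ E : Set unitInterval, packDim (f '' E) = 7 / 4 * packDim E) {S : Set ℂ}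
    (hS : S ∈ 𝓢) : Sect R f a S := by
  have h1 : ENNReal.ofReal (7/4) * dimH {s : unitInterval | f s ∈ S ∩ R.D} ≤
      ENNReal.ofReal (a - 1/4) := by
    have hcov : {s : unitInterval | f s ∈ S ∩ R.D} ⊆
        (∅ : Set unitInterval) ∪ ⋃ n : ℕ, {s | f s ∈ Dep R (1 / ((n:ℝ) + 1))} := by
      intro s hs
      obtain ⟨n, hn⟩ := mem_iUnion.1 (dep_union R hs.2)
      exact Or.inr (mem_iUnion.2 ⟨n, hn⟩)
    refine mul_dimH_le hcov (by simp) ENNReal.ofReal_ne_top ?_ fun n => ?_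
    · rw [inter_empty, dimH_empty, mul_zero]; exact zero_le
    · refine le_trans ?_ (hG.times ha hS (κ := 1 / ((n:ℝ) + 1)) (by positivity))
      gcongr
      exact fun s hs => ⟨hs.2, hs.1.1⟩
  have h3 : range f ∩ (S ∩ R.D) = f '' {s : unitInterval | f s ∈ S ∩ R.D} := by
    ext z; constructor
    · rintro ⟨⟨s, rfl⟩, hs⟩; exact ⟨s, hs, rfl⟩
    · rintro ⟨s, hs, rfl⟩; exact ⟨⟨s, rfl⟩, hs⟩
  refine ⟨⟨?_, hG.pack ha hS⟩, ?_, ?_⟩
  · calc dimH {s : unitInterval | f s ∈ S ∩ R.D}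
        = ENNReal.ofReal (4/7) * (ENNReal.ofReal (7/4) *
          dimH {s : unitInterval | f s ∈ S ∩ R.D}) := by
          rw [← mul_assoc, ← ENNReal.ofReal_mul (by norm_num)]
          norm_num
      _ ≤ ENNReal.ofReal (4/7) * ENNReal.ofReal (a - 1/4) := by gcongr
      _ = _ := by rw [← ENNReal.ofReal_mul (by norm_num)]
  · rw [h3, hun, e74]; exact h1
  · rw [h3, hup, e74]
    calc ENNReal.ofReal (7/4) * packDim {s : unitInterval | f s ∈ S ∩ R.D}
        ≤ ENNReal.ofReal (7/4) * ENNReal.ofReal (4/7 * (a - 1/4)) := by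
          gcongr; exact hG.pack ha hS
      _ = ENNReal.ofReal (a - 1/4) := by
          rw [← ENNReal.ofReal_mul (by norm_num)]; congr 1; ring

theorem sect_lim {R : Rect} {f : C(unitInterval, ℂ)} {a : ℝ} {S : Set ℂ} (ha : 1/2 ≤ a)
    (ha2 : a < 2) (h : ∀ n : ℕ, a + 1 / ((n:ℝ) + 1) ≤ 2 → Sect R f (a + 1 / ((n:ℝ) + 1)) S) :
    Sect R f a S := by
  have key : ∀ (d : ℝ≥0∞) (c b : ℝ), 0 < c → 0 ≤ b →
      (∀ n : ℕ, a + 1 / ((n:ℝ) + 1) ≤ 2 → d ≤ ENNReal.ofReal (b + c * (1 / ((n:ℝ) + 1)))) →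
      d ≤ ENNReal.ofReal b := by
    intro d c b hc hb hd
    refine ENNReal.le_of_forall_pos_le_add fun ε hε _ => ?_
    obtain ⟨n, hn⟩ := exists_nat_one_div_lt (show (0:ℝ) < min (ε / c) (2 - a) from
      lt_min (by positivity) (by linarith))
    have hn1 := hn.trans_le (min_le_left _ _)
    have hn2 := hn.trans_le (min_le_right _ _)
    refine (hd n (by linarith)).trans ?_
    rw [← ENNReal.ofReal_coe_nnreal (p := ε), ← ENNReal.ofReal_add hb (NNReal.coe_nonneg ε)]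
    apply ENNReal.ofReal_le_ofReal
    rw [lt_div_iff₀ hc] at hn1
    linarith
  refine ⟨⟨?_, ?_⟩, ?_, ?_⟩
  · refine key _ (4/7) _ (by norm_num) (by linarith) fun n hn => (h n hn).1.1.trans (le_of_eq ?_)
    congr 1; ring
  · refine key _ (4/7) _ (by norm_num) (by linarith) fun n hn => (h n hn).1.2.trans (le_of_eq ?_)
    congr 1; ring
  · refine key _ 1 _ (by norm_num) (by linarith) fun n hn => (h n hn).2.1.trans (le_of_eq ?_)
    congr 1; ring
  · refine key _ 1 _ (by norm_num) (by linarith) fun n hn => (h n hn).2.2.trans (le_of_eq ?_)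
    congr 1; ring

theorem copies_of {R : Rect} {f : C(unitInterval, ℂ)} {S : Set ℂ} {a : ℝ} (ha : 1/2 ≤ a)
    (ha2 : a < 2) (hG : ∀ n m : ℕ, a + 1 / ((n:ℝ) + 1) ≤ 2 →
      Good R (Cop S ((m:ℝ) + 1)) (a + 1 / ((n:ℝ) + 1)) f)
    (hun : ∀ E : Set unitInterval, dimH (f '' E) = 7 / 4 * dimH E)
    (hup : ∀ E : Set unitInterval, packDim (f '' E) = 7 / 4 * packDim E)
    (α γ β : ℂ) (h : ‖α‖ ≠ ‖γ‖) : Sect R f a (aff α γ β '' S) := by
  refine sect_lim ha ha2 fun n hn => ?_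
  have hpos : 0 < |‖α‖ - ‖γ‖| := abs_pos.2 (sub_ne_zero.2 h)
  obtain ⟨m, hm⟩ := exists_nat_ge (‖α‖ + ‖γ‖ + ‖β‖ + 1 / |‖α‖ - ‖γ‖|)
  have h1 : 0 < 1 / |‖α‖ - ‖γ‖| := by positivity
  have n1 := norm_nonneg α
  have n2 := norm_nonneg γ
  have n3 := norm_nonneg β
  have h0 : (0:ℝ) < 1 / ((n:ℝ) + 1) := by positivity
  refine sect_of (hG n m hn) (by linarith) hun hup
    ⟨α, γ, β, by linarith, by linarith, by linarith, ?_, rfl⟩
  rw [div_le_iff₀ (by positivity)]
  have h2 : 1 / |‖α‖ - ‖γ‖| ≤ (m:ℝ) + 1 := by linarith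
  rw [div_le_iff₀ hpos] at h2
  linarith

/-- All affine copies of a regular set. -/
theorem copies_ae {C : ℝ} (hC : 0 < C) (hU : H342P.TwoUp C (1/4)) (R : Rect) {δ : ℕ → ℝ}
    (hδ : ∀ i, 0 < δ i) (hlim : Tendsto δ atTop (𝓝 0))
    {μ : ProbabilityMeasure X} (hμ : Tendsto (fun i => R.law (δ i)) atTop (𝓝 μ))
    (hpos : ∀ᵐ p ∂(μ : Measure X), 0 < p.2 ∧ Hol p.1)
    (hun : ∀ᵐ p ∂(μ : Measure X), ∀ E : Set unitInterval, dimH (p.1 '' E) = 7 / 4 * dimH E)
    (hup : ∀ᵐ p ∂(μ : Measure X), ∀ E : Set unitInterval,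
      packDim (p.1 '' E) = 7 / 4 * packDim E)
    {S : Set ℂ} {a : ℝ} (ha : 1/2 ≤ a) (ha2 : a < 2) (hreg : Reg S a) :
    ∀ᵐ p ∂(μ : Measure X), ∀ α γ β : ℂ, ‖α‖ ≠ ‖γ‖ → Sect R p.1 a (aff α γ β '' S) := by
  have hall : ∀ᵐ p ∂(μ : Measure X), ∀ n m : ℕ,
      a + 1 / ((n:ℝ) + 1) ≤ 2 → Good R (Cop S ((m:ℝ) + 1)) (a + 1 / ((n:ℝ) + 1)) p.1 := by
    rw [ae_all_iff]; intro n
    rw [ae_all_iff]; intro m
    by_cases h : a + 1 / ((n:ℝ) + 1) ≤ 2
    · have hn : (0:ℝ) < 1 / ((n:ℝ) + 1) := by positivity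
      filter_upwards [good_ae hC hU R hδ hlim hμ hpos (cop_ent R (m := (m:ℝ) + 1)
        (hreg.mono (a' := a + 1 / ((n:ℝ) + 1)) (by linarith))
        (by have : (0:ℝ) ≤ m := Nat.cast_nonneg m
            linarith)) (by linarith) h] with p hp _
      exact hp
    · exact Eventually.of_forall fun p h' => absurd h' h
  filter_upwards [hall, hun, hup] with p g1 g2 g3 α γ β h
  exact copies_of ha ha2 g1 g2 g3 α γ β h

/-- For every regular set `S`, almost surely, all affine copies of `S` at the same time. -/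
def Copies (R : Rect) (μ : ProbabilityMeasure X) (S : Set ℂ) (a : ℝ) : Prop :=
  ∀ᵐ p ∂(μ : Measure X), ∀ α γ β : ℂ, ‖α‖ ≠ ‖γ‖ → Sect R p.1 a (aff α γ β '' S)

theorem result (R : Rect) :
    (∀ δ : ℕ → ℝ, (∀ i, 0 < δ i) → Tendsto δ atTop (𝓝 0) →
      ∃ φ : ℕ → ℕ, StrictMono φ ∧ ∃ μ : ProbabilityMeasure X,
        Tendsto (fun i => R.law (δ (φ i))) atTop (𝓝 μ)) ∧
    ∀ μ : ProbabilityMeasure X, IsLimit R μ →
      (∀ (S : Set ℂ) (a : ℝ), 1/2 ≤ a → a < 2 → Reg S a → Copies R μ S a) ∧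
      (∀ (R' : Rect) (μ' : ProbabilityMeasure X), IsLimit R' μ' →
        ∀ᵐ q ∂(μ' : Measure X), Reg (range q.1) (7/4) ∧ Copies R μ (range q.1) (7/4)) ∧
      (∀ (𝓢 : Set (Set ℂ)) (a : ℝ), 1/2 < a → a ≤ 2 → Ent R 𝓢 a →
        ∀ᵐ p ∂(μ : Measure X), ∀ S ∈ 𝓢, Sect R p.1 a S) := by
  obtain ⟨⟨c, hc, hL⟩, ⟨C, hC, hU⟩, C2, hC2, hA⟩ := MP_fe58d8_pr.UniformDimension.inputs
  obtain ⟨h1, h2⟩ := MP_fe58d8_pr.UniformDimension.result R
  refine ⟨h1, fun μ ⟨δ, hδ, hlim, hμ⟩ => ?_⟩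
  have hun := h2 δ hδ hlim μ hμ
  have hpos : ∀ᵐ p ∂(μ : Measure X), 0 < p.2 ∧ Hol p.1 := by
    filter_upwards [(MP_fe58d8_pr.NaturalCurve.result R).2.2.2 δ hδ hlim μ hμ] with p hp
    exact ⟨hp.1, hp.2.2.2.2.2.1⟩
  have hup : ∀ᵐ p ∂(μ : Measure X), ∀ E : Set unitInterval,
      packDim (p.1 '' E) = 7 / 4 * packDim E := by
    obtain ⟨-, C', κ, K, -, -, -, h⟩ := MP_fe58d8_pr.UniformMeasure.result R
    filter_upwards [h δ hδ hlim μ hμ] with p hp E
    exact (hp.2.2.1.1 E).2.2.1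
  refine ⟨?_, ?_, ?_⟩
  · intro S a ha ha2 hreg
    exact copies_ae hC hU R hδ hlim hμ hpos hun hup ha ha2 hreg
  · rintro R' μ' ⟨δ', hδ', hlim', hμ'⟩
    obtain ⟨t1, t2, t3⟩ := final_of hc hC hL hU hC2 hA R'
    have hT : ∀ ε : ℝ, 0 < ε → ∃ Λ δ0 : ℝ, 0 < Λ ∧ 0 < δ0 ∧ ∀ δ : ℝ, 0 < δ → δ ≤ δ0 →
        1 - ε ≤ R'.prob δ (fun F => 1 / Λ ≤ R'.time δ F) := by
      intro ε hε
      obtain ⟨Λ, δ0, hΛ, hδ0, h⟩ := t1 (1/2) ε (by norm_num) (by norm_num) hε
      refine ⟨Λ, δ0, hΛ, hδ0, fun δ hδ hδ' => (h δ hδ hδ').trans ?_⟩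
      exact Exist_prob_mono R' δ fun F _ hF => hF.1.1
    filter_upwards [(MP_fe58d8_pr.NaturalCurve.result R').2.2.2 δ' hδ' hlim' μ' hμ',
      H443P.limit_occ_all R' hδ' hlim' hμ' hC hU H443U.Sum.t hT] with q q1 q2
    have hreg : Reg (range q.1) (7/4) := trace_reg q1.2.2.2.2.2.1 q2
    exact ⟨hreg, copies_ae hC hU R hδ hlim hμ hpos hun hup (by norm_num) (by norm_num) hreg⟩
  · intro 𝓢 a ha ha2 hE
    filter_upwards [good_ae hC hU R hδ hlim hμ hpos hE ha ha2, hun, hup] with p g1 g2 g3 S hS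
    exact sect_of g1 ha g2 g3 hS

end Pool.Agent.Results.MP_b3e76a_pr.AllAffineCopies
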