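import Pool.Agent.N892.AC.Ae
import Pool.Agent.Results.MP_fe58d8_pr.BoundaryTimes
import Pool.Agent.Results.MP_fe58d8_pr.NaturalCurve
import Pool.Agent.Results.MP_fe58d8_pr.UniformDimension

/-!
# All projections and all pinned distances of the scaling limits of the exploration path

Critical bond percolation on `δ ℤ²` (the FK model with `q = 1`) in a rectangle
`D = (-A, B) × (0, H)`, with the counterclockwise boundary arc from `a = t + i H` to `b = 0` wired
and the other one dual-wired. `Rect.law` is the law of the exploration path from `a` to `b` (as a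
curve with constant speed) and of its natural time. Weak limits exist along a subsequence of every
sequence of meshes.

For every weak limit `f`, almost surely, simultaneously for ALL functions `g` of the plane which are
either a linear coordinate `co u z = Re (conj u * z)`, `|u| = 1`, or the distance to a point `z0`:

* for ALL sets `E` of times, the dimension of the image `g(f(E))` is between
  `(7/4) dim E - 3/4` and `min (1, (7/4) dim E)`, and the dimension of the graph of `g ∘ f` over `E`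
  is between `max (dim E, (7/4) dim E - 9/28)` and `min ((7/4) dim E, dim E + 3/7)`;
* the graph of `g ∘ f` over every interval of times has dimension exactly `10/7`;
* every level set of `g ∘ f` has dimension at most `3/7`, and the intersection of the path with
  every line and with every circle has dimension at most `3/4`.

Definitions: `co` in `Pool.Agent.N892.AC.Dim`, `IsLimit` in `Pool.Agent.N892.AC.Ae`; for the
exploration path, `Pool.Agent.H984R4.NP.Model` (`Rect`, `pos`, `clamp`, `pl`, `X`, `Rect.D`,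
`Rect.dm`, `Rect.curve`, `Rect.time`, `Rect.law`), `Pool.Agent.H984R4.NP.Defs` (`Dm`, `Dm.edges`,
`Dm.wir`, `Dm.cfg`, `Dm.walk`, `Dm.len`) and `Pool.Agent.H984R3.Per.Defs` (states, `ae`, `mv`, `rt`,
`nxt`, `orb`).
-/

set_option autoImplicit false

namespace Pool.Agent.Results.MP_b3e76a_pr.AllProjections

open H984N MeasureTheory Filter Topology Set
open Pool.Agent.N892.AC
open scoped ENNReal NNReal

/-- The coordinates in all directions and the distances to all points. -/
def Obs : Set (ℂ → ℝ) :=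
  {g | (∃ u : ℂ, ‖u‖ = 1 ∧ g = co u) ∨ ∃ z0 : ℂ, g = fun z => dist z z0}

/-- The bounds for the image and for the graph over `E`. -/
def Bounds (f : C(unitInterval, ℂ)) (g : ℂ → ℝ) (E : Set unitInterval) : Prop :=
  (7 / 4 * dimH E ≤ dimH ((fun s => g (f s)) '' E) + 3 / 4 ∧
    dimH ((fun s => g (f s)) '' E) ≤ min 1 (7 / 4 * dimH E)) ∧
  (7 / 4 * dimH E ≤ dimH ((fun s => (s, g (f s))) '' E) + 9 / 28 ∧
    dimH E ≤ dimH ((fun s => (s, g (f s))) '' E) ∧
    dimH ((fun s => (s, g (f s))) '' E) ≤ min (7 / 4 * dimH E) (dimH E + 3 / 7))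

/-- All sets of times, all intervals and all level sets. -/
def Concl (f : C(unitInterval, ℂ)) (g : ℂ → ℝ) : Prop :=
  (∀ E : Set unitInterval, Bounds f g E) ∧
  (∀ s t : unitInterval, s < t → dimH ((fun s => (s, g (f s))) '' Icc s t) = 10 / 7) ∧
  ∀ x : ℝ, dimH {s : unitInterval | g (f s) = x} ≤ 3 / 7 ∧ dimH (range f ∩ {z | g z = x}) ≤ 3 / 4

theorem concl_of {f : C(unitInterval, ℂ)} {g : ℂ → ℝ} {B : Set unitInterval}
    {K : ℕ → Set unitInterval} (hg : ∀ z w, |g z - g w| ≤ dist z w)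
    (hcov : ∀ s, s ∈ B ∪ ⋃ n, K n) (hB : dimH B ≤ 8 / 21)
    (hK1 : ∀ n, ∀ E : Set unitInterval, E ⊆ K n →
      ENNReal.ofReal (7/4) * dimH E ≤ dimH ((fun s => g (f s)) '' E) + ENNReal.ofReal (3/4))
    (hK2 : ∀ n, ∀ E : Set unitInterval, E ⊆ K n → ENNReal.ofReal (7/4) * dimH E ≤
      dimH ((fun s => (s, g (f s))) '' E) + ENNReal.ofReal (9/28))
    (hh : Hol f) (hun : ∀ E : Set unitInterval, dimH (f '' E) = 7 / 4 * dimH E)
    (hI : ∀ s t : unitInterval, s < t → dimH (f '' Icc s t) = 7 / 4) : Concl f g := by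
  have hB' : ∀ E : Set unitInterval, Bounds f g E := by
    intro E
    have h1 := hol_comp hg hh
    refine ⟨⟨proj_all (fun s _ => hcov s) hB hK1, le_min ?_ (h1.dim E)⟩,
      graph_all (fun s _ => hcov s) hB hK2, le_graph E, le_min ((hol_graph h1).dim E) ?_⟩
    · exact (dimH_mono (subset_univ _)).trans Real.dimH_univ.le
    · rw [e37]; exact h1.graph E
  have h0 : (7 / 4 : ℝ≥0∞) ≠ 0 := by simp
  have htop : (7 / 4 : ℝ≥0∞) ≠ ⊤ := ENNReal.div_ne_top (by simp) (by simp)
  refine ⟨hB', fun s t hst => ?_, fun x => ?_⟩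
  · have hd : dimH (Icc s t) = 1 := by
      have h1 := hun (Icc s t)
      rw [hI s t hst] at h1
      exact ((ENNReal.mul_eq_left h0 htop).1 h1.symm)
    obtain ⟨-, h3, -, h4⟩ := hB' (Icc s t)
    rw [hd] at h3 h4
    refine le_antisymm (h4.trans ((min_le_right _ _).trans (le_of_eq ?_))) ?_
    · rw [e37, e107, ← ENNReal.ofReal_one, ← ENNReal.ofReal_add (by norm_num) (by norm_num)]
      norm_num
    · rw [mul_one] at h3
      have h5 : (10 / 7 : ℝ≥0∞) + 9 / 28 ≤
          dimH ((fun s => (s, g (f s))) '' Icc s t) + 9 / 28 := by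
        refine le_trans (le_of_eq ?_) h3
        rw [e107, e928, e74, ← ENNReal.ofReal_add (by norm_num) (by norm_num)]
        norm_num
      exact (ENNReal.add_le_add_iff_right (ENNReal.div_ne_top (by simp) (by simp))).1 h5
  · have h1 := (hB' {s : unitInterval | g (f s) = x}).1.1
    have h2 : dimH ((fun s => g (f s)) '' {s : unitInterval | g (f s) = x}) = 0 := by
      have hsub : ((fun s => g (f s)) '' {s : unitInterval | g (f s) = x}) ⊆ {x} := by
        rintro _ ⟨s, hs, rfl⟩; exact hs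
      exact le_antisymm ((dimH_mono hsub).trans (dimH_singleton x).le) zero_le
    rw [h2, zero_add] at h1
    have e47 : (4 / 7 : ℝ≥0∞) = ENNReal.ofReal (4/7) := by
      rw [ENNReal.ofReal_div_of_pos (by norm_num)]; norm_num
    constructor
    · calc dimH {s : unitInterval | g (f s) = x}
          = 4 / 7 * (7 / 4 * dimH {s : unitInterval | g (f s) = x}) := by
            rw [← mul_assoc]
            have : (4 / 7 : ℝ≥0∞) * (7 / 4) = 1 := by
              rw [e74, e47, ← ENNReal.ofReal_mul (by norm_num)]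
              norm_num
            rw [this, one_mul]
        _ ≤ 4 / 7 * (3 / 4) := by gcongr
        _ = 3 / 7 := by
            rw [e34, e37, e47, ← ENNReal.ofReal_mul (by norm_num)]
            norm_num
    · have h3 : range f ∩ {z | g z = x} = f '' {s : unitInterval | g (f s) = x} := by
        ext z; constructor
        · rintro ⟨⟨s, rfl⟩, hs⟩; exact ⟨s, hs, rfl⟩
        · rintro ⟨s, hs, rfl⟩; exact ⟨⟨s, rfl⟩, hs⟩
      rw [h3, hun]; exact h1

/-- The directions. -/
theorem lines_of {R : Rect} {f : C(unitInterval, ℂ)} (hG : Good R Lines 1 f)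
    (hcl : ∀ s, f s ∈ closure R.D) (hb : dimH {s : unitInterval | f s ∈ frontier R.D} ≤ 8 / 21)
    (hh : Hol f) (hun : ∀ E : Set unitInterval, dimH (f '' E) = 7 / 4 * dimH E)
    (hI : ∀ s t : unitInterval, s < t → dimH (f '' Icc s t) = 7 / 4) {u : ℂ} (hu : ‖u‖ = 1) :
    Concl f (co u) := by
  refine concl_of (B := {s | f s ∈ frontier R.D})
    (K := fun n : ℕ => {s | f s ∈ Dep R (1 / ((n:ℝ) + 1))}) (co_dist hu)
    (fun s => times_cov hcl univ (mem_univ s)) hb ?_ ?_ hh hun hI
  · intro n E hE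
    have hκ : (0:ℝ) < 1 / ((n:ℝ) + 1) := by positivity
    exact hG.proj hκ (half_pos hκ) le_rfl (foot_line hu hκ) hE
  · intro n E hE
    have hκ : (0:ℝ) < 1 / ((n:ℝ) + 1) := by positivity
    exact hG.graph hκ (half_pos hκ) le_rfl (foot_line hu hκ) hE

/-- The distances. -/
theorem pins_of {R : Rect} {f : C(unitInterval, ℂ)}
    (hG : ∀ m : ℕ, Good R (Cop ci ((m:ℝ) + 1)) 1 f)
    (hcl : ∀ s, f s ∈ closure R.D) (hb : dimH {s : unitInterval | f s ∈ frontier R.D} ≤ 8 / 21)
    (hh : Hol f) (hun : ∀ E : Set unitInterval, dimH (f '' E) = 7 / 4 * dimH E)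
    (hI : ∀ s t : unitInterval, s < t → dimH (f '' Icc s t) = 7 / 4) (z0 : ℂ) :
    Concl f (fun z => dist z z0) := by
  have hz : dimH {s : unitInterval | f s = z0} = 0 := by
    have h1 := hun {s : unitInterval | f s = z0}
    have h2 : dimH (f '' {s : unitInterval | f s = z0}) = 0 := by
      have hsub : f '' {s : unitInterval | f s = z0} ⊆ {z0} := by
        rintro _ ⟨s, hs, rfl⟩; exact hs
      exact le_antisymm ((dimH_mono hsub).trans (dimH_singleton z0).le) zero_le
    rw [h2] at h1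
    rcases mul_eq_zero.1 h1.symm with h | h
    · simp at h
    · exact h
  have hex : ∀ n : ℕ, ∃ m : ℕ, 1 / (1 / ((n:ℝ) + 1)) ≤ (m:ℝ) + 1 ∧
      ‖z0‖ + (R.A + R.B + R.H + 1) ≤ (m:ℝ) + 1 := by
    intro n
    obtain ⟨m, hm⟩ := exists_nat_ge (max ((n:ℝ) + 1) (‖z0‖ + (R.A + R.B + R.H + 1)))
    refine ⟨m, ?_, ?_⟩
    · rw [one_div_one_div]
      exact ((le_max_left _ _).trans hm).trans (by linarith)
    · exact ((le_max_right _ _).trans hm).trans (by linarith)
  refine concl_of (B := {s | f s ∈ frontier R.D} ∪ {s | f s = z0})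
    (K := fun n : ℕ => {s | f s ∈ Dep R (1 / ((n:ℝ) + 1)) ∧ 1 / ((n:ℝ) + 1) ≤ dist (f s) z0})
    ?_ ?_ ?_ ?_ ?_ hh hun hI
  · intro z w
    have := abs_dist_sub_le z w z0
    exact this
  · intro s
    rcases times_cov hcl univ (mem_univ s) with h | h
    · exact Or.inl (Or.inl h)
    · by_cases h0 : f s = z0
      · exact Or.inl (Or.inr h0)
      · obtain ⟨n, hn⟩ := mem_iUnion.1 h
        have hpos : 0 < dist (f s) z0 := dist_pos.2 h0
        obtain ⟨m, hm⟩ := exists_nat_one_div_lt hpos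
        refine Or.inr (mem_iUnion.2 ⟨max n m, ?_, ?_⟩)
        · apply dep_anti R _ hn
          apply one_div_le_one_div_of_le (by positivity)
          have : (n:ℝ) ≤ (max n m : ℕ) := by exact_mod_cast le_max_left n m
          linarith
        · refine le_trans ?_ hm.le
          apply one_div_le_one_div_of_le (by positivity)
          have : (m:ℝ) ≤ (max n m : ℕ) := by exact_mod_cast le_max_right n m
          linarith
  · rw [dimH_union, hz]
    exact max_le hb zero_le
  · intro n E hE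
    have hκ : (0:ℝ) < 1 / ((n:ℝ) + 1) := by positivity
    obtain ⟨m, hm1, hm2⟩ := hex n
    exact (hG m).proj hκ (half_pos hκ) (fun s hs => hs.1) (foot_circle z0 hκ hκ hm1 hm2) hE
  · intro n E hE
    have hκ : (0:ℝ) < 1 / ((n:ℝ) + 1) := by positivity
    obtain ⟨m, hm1, hm2⟩ := hex n
    exact (hG m).graph hκ (half_pos hκ) (fun s hs => hs.1) (foot_circle z0 hκ hκ hm1 hm2) hE

theorem result (R : Rect) :
    (∀ δ : ℕ → ℝ, (∀ i, 0 < δ i) → Tendsto δ atTop (𝓝 0) →
      ∃ φ : ℕ → ℕ, StrictMono φ ∧ ∃ μ : ProbabilityMeasure X,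
        Tendsto (fun i => R.law (δ (φ i))) atTop (𝓝 μ)) ∧
    ∀ μ : ProbabilityMeasure X, IsLimit R μ →
      ∀ᵐ p ∂(μ : Measure X), ∀ g ∈ Obs, Concl p.1 g := by
  obtain ⟨-, ⟨C, hC, hU⟩, -⟩ := MP_fe58d8_pr.UniformDimension.inputs
  obtain ⟨h1, h2⟩ := MP_fe58d8_pr.UniformDimension.result R
  refine ⟨h1, fun μ ⟨δ, hδ, hlim, hμ⟩ => ?_⟩
  have hnat := (MP_fe58d8_pr.NaturalCurve.result R).2.2.2 δ hδ hlim μ hμ
  have hpos : ∀ᵐ p ∂(μ : Measure X), 0 < p.2 ∧ Hol p.1 := by
    filter_upwards [hnat] with p hp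
    exact ⟨hp.1, hp.2.2.2.2.2.1⟩
  have hcirc : ∀ᵐ p ∂(μ : Measure X), ∀ m : ℕ, Good R (Cop ci ((m:ℝ) + 1)) 1 p.1 := by
    rw [ae_all_iff]; intro m
    have hm : (0:ℝ) ≤ m := Nat.cast_nonneg m
    exact good_ae hC hU R hδ hlim hμ hpos (cop_ent R (m := (m:ℝ) + 1) circle_reg (by linarith))
      (by norm_num) (by norm_num)
  filter_upwards [good_ae hC hU R hδ hlim hμ hpos (lines_ent R) (by norm_num) (by norm_num),
    hcirc, h2 δ hδ hlim μ hμ, hnat, (MP_fe58d8_pr.BoundaryTimes.result R).2 δ hδ hlim μ hμ]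
    with p g1 g2 g3 g4 g5
  rintro g (⟨u, hu, rfl⟩ | ⟨z0, rfl⟩)
  · exact lines_of g1 g4.2.2.2.1 g5.1.le g4.2.2.2.2.2.1 g3 g4.2.2.2.2.1 hu
  · exact pins_of g2 g4.2.2.2.1 g5.1.le g4.2.2.2.2.2.1 g3 g4.2.2.2.2.1 z0

end Pool.Agent.Results.MP_b3e76a_pr.AllProjections
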