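import Pool.Agent.N481.EP.Fin2
import Pool.Agent.Results.MP_fe58d8_pr.ArcContent

/-!
# Correlation integrals and capacities of the percolation interface

Critical bond percolation (`q = 1`) on `δ ℤ²` in a rectangle `D = (-A, B) × (0, H)`, with the counterclockwise boundary
arc from `a = t + i H` to `b = 0` wired and the other one dual-wired. The interface is parametrised by its number of
steps: `Rect.curve` is the piecewise linear curve on `[0, 1]` run at constant speed, and `Rect.time` is the number of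
steps times `δ ^ (7/4)`; `Rect.law` is the law of (curve, time). Weak limits exist along a subsequence of every sequence
of meshes. Let `p = (f, T)` be distributed as a weak limit, in any rectangle. Almost surely:

(1) for all small `r` and ALL pieces `f [s, t]` of natural time `T (t - s) ≥ C r ^ (7/4) log (1/r)`, the natural time
`N (u)` which the piece spends within distance `r` of `f u` has a mean value over `u ∈ [s, t]` of at least
`c r ^ (7/4)`, and a seventh moment of at most `(C r ^ (7/4)) ^ 7`. (So all the moments of order between `1` and `7` are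
of the exact order; `c`, `C` are universal constants.)

(2) simultaneously for ALL nonincreasing kernels `k ≥ 0` and all measurable sets `E` of times of positive measure: `f (E)`
carries a probability measure of finite `k`-energy iff `∫_0^1 k (r) r ^ (3/4) dr < ∞`. In particular this is the exact
test for the curve and for each of its arcs.

The input are the comparison of time and area for all pieces (starting library, `ArcContent`) and the tail
`exp (- c x ^ 8)` of the number of vertices with two arms in a box (`TH992.T.tail1`). New here: the eighth powers of the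
occupation of the blocks visited by a piece, summed over all connected sets of blocks (`EP.Up8`, `EP.Det8`), the passage
to the limit (`EP.Curve`, `EP.Lim8`, `EP.All8`), the correlation integral from below for every measure on the curve
(`EP.Riesz`), and the integral test (`EP.Kern`, `EP.Fin2`).

Definitions: below; `Pool.Agent.H984R4.NP.Model` (`Rect`, `pos`, `clamp`, `pl`, `X`, `Rect.dm`, `Rect.curve`, `Rect.time`,
`Rect.law`), `Pool.Agent.H984R4.NP.Defs` (`Dm`, `Dm.edges`, `Dm.wir`, `Dm.cfg`, `Dm.walk`, `Dm.len`) and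
`Pool.Agent.H984R3.Per.Defs` (states, `ae`, `mv`, `rt`, `nxt`, `orb`).
-/

set_option autoImplicit false

namespace Pool.Agent.Results.MP_b3e76a_pr.EnergyProfile

open H984N MeasureTheory Filter Topology

/-- The natural time which the piece `f ([s, t])` spends within distance `r` of `f u`, `p = (f, T)`. -/
noncomputable def near (p : X) (s t : unitInterval) (r : ℝ) (u : unitInterval) : ℝ :=
  p.2 * (volume {v : unitInterval | (s ≤ v ∧ v ≤ t) ∧ dist (p.1 u) (p.1 v) ≤ r}).toReal

/-- The `k`-energy of a measure. -/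
noncomputable def energy (k : ℝ → ENNReal) (ν : Measure ℂ) : ENNReal :=
  ∫⁻ x, ∫⁻ y, k (dist x y) ∂ν ∂ν

/-- `E` carries a probability measure of finite `k`-energy (positive `k`-capacity). -/
def PosCap (k : ℝ → ENNReal) (E : Set ℂ) : Prop :=
  ∃ ν : Measure ℂ, IsProbabilityMeasure ν ∧ ν Eᶜ = 0 ∧ energy k ν ≠ ⊤

theorem result : ∃ c C : ℝ, 0 < c ∧ 0 < C ∧ ∀ R : Rect,
    (∀ δ : ℕ → ℝ, (∀ i, 0 < δ i) → Tendsto δ atTop (𝓝 0) →
      ∃ φ : ℕ → ℕ, StrictMono φ ∧ ∃ μ : ProbabilityMeasure X,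
        Tendsto (fun i => R.law (δ (φ i))) atTop (𝓝 μ)) ∧
    ∀ δ : ℕ → ℝ, (∀ i, 0 < δ i) → Tendsto δ atTop (𝓝 0) → ∀ μ : ProbabilityMeasure X,
      Tendsto (fun i => R.law (δ i)) atTop (𝓝 μ) →
      ∀ᵐ p ∂(μ : Measure X), 0 < p.2 ∧
        (∀ᶠ r : ℝ in 𝓝[>] 0, ∀ s t : unitInterval, s ≤ t →
          C * (r ^ (7/4 : ℝ) * Real.log (1 / r)) ≤ p.2 * ((t:ℝ) - s) →
            c * r ^ (7/4 : ℝ) * ((t:ℝ) - s) ≤ ∫ u in Set.Icc s t, near p s t r u ∧
            ∫ u in Set.Icc s t, near p s t r u ^ 7 ≤ (C * r ^ (7/4 : ℝ)) ^ 7 * ((t:ℝ) - s)) ∧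
        ∀ k : ℝ → ENNReal, AntitoneOn k (Set.Ici 0) →
          ∀ E : Set unitInterval, MeasurableSet E → volume E ≠ 0 →
            (PosCap k (p.1 '' E) ↔
              ∫⁻ r in Set.Ioo (0:ℝ) 1, k r * ENNReal.ofReal (r ^ (3/4 : ℝ)) ≠ ⊤) := by
  obtain ⟨⟨c, hc, hL⟩, ⟨C, hC, hU⟩, -⟩ := Pool.Agent.Results.MP_fe58d8_pr.NaturalCurve.inputs
  obtain ⟨K, hK1, hmesh⟩ := Y994.MD.meshB hc hC hL hU
  obtain ⟨K', hK', hmeshE⟩ := Pool.Agent.N481.EP.meshE hc hC hL hU
  have hK : 0 < K := by linarith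
  obtain ⟨A, hA⟩ : ∃ A : ℝ, A = K' * 16 ^ 15 + 1 := ⟨_, rfl⟩
  have hA0 : 0 < A := by rw [hA]; positivity
  refine ⟨1 / (1936 * K), max (968 * K) A, by positivity, lt_max_of_lt_right hA0, fun R => ?_⟩
  obtain ⟨-, -, hsub, hlim0⟩ := Pool.Agent.Results.MP_fe58d8_pr.NaturalCurve.result R
  refine ⟨hsub, fun δ hδ hlim μ hμ => ?_⟩
  obtain ⟨B, hB, hB2⟩ := hmesh R
  obtain ⟨B', hB', hB2'⟩ := hmeshE R
  filter_upwards [hlim0 δ hδ hlim μ hμ, Y994.MD.lim_aeB hK hB hB2 hδ hlim hμ,
    Pool.Agent.N481.EP.lim_aeE hB' hB2' hδ hlim hμ] with p hp1 hp2 hp3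
  have h1 : Pool.Agent.N481.EP.Two K p :=
    Y994.MD.all_two hK1 (Y994.MD.all_gen hK hp1.1 hp2)
  have h7 := Pool.Agent.N481.EP.all_E hK' hp1.1 hp3
  rw [← hA] at h7
  refine ⟨hp1.1, ?_, fun k hk E hE hE0 => ?_⟩
  · have hev : ∀ᶠ r : ℝ in 𝓝[>] 0, 0 < r ∧ r < 1 :=
      Filter.Eventually.and self_mem_nhdsWithin (nhdsWithin_le_nhds (gt_mem_nhds one_pos))
    filter_upwards [Pool.Agent.N481.EP.low_all hK1 hp1.1 h1, h7, hev] with r g1 g2 hr s t hst hT
    obtain ⟨hr0, hr1⟩ := hr
    have hst' : (s:ℝ) ≤ t := hst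
    have hL0 : 0 ≤ r ^ (7/4 : ℝ) * Real.log (1 / r) :=
      mul_nonneg (Real.rpow_nonneg hr0.le _)
        (Real.log_nonneg (by rw [le_div_iff₀ hr0]; linarith))
    refine ⟨g1 s t hst ((mul_le_mul_of_nonneg_right (le_max_left _ _) hL0).trans hT),
      (g2 s t hst ((mul_le_mul_of_nonneg_right (le_max_right _ _) hL0).trans hT)).trans ?_⟩
    refine mul_le_mul_of_nonneg_right ?_ (by linarith)
    have h0 : 0 ≤ r ^ (7/4 : ℝ) := Real.rpow_nonneg hr0.le _
    exact pow_le_pow_left₀ (by positivity) (mul_le_mul_of_nonneg_right (le_max_right _ _) h0) 7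
  · exact Pool.Agent.N481.EP.cap_all hK1 hA0 hp1.1 h1 h7 hk hE hE0

end Pool.Agent.Results.MP_b3e76a_pr.EnergyProfile
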