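import Pool.Agent.N948.IX.Fin1

/-!
# Independent interfaces of critical bond percolation on `ℤ²`: Brownian intersection exponents

`m` independent configurations of critical bond percolation on the square lattice. An interface of
a configuration is an orbit of the map `nxt` on the states: a state is a vertex (on the right of the
interface) together with a corner face of this vertex (on its left), `ae` is the edge which is
examined; if it is open the vertex moves along the edge and the face is kept, if it is closed the
vertex is kept and the face moves across the edge.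

For a choice `j 0, ..., j (K-1)` of configurations (repetitions are allowed) the event `Avoiding` says
that there are `K` pieces of interfaces which cross the annulus between the squares of radius `a` and
`b` around the origin from the outside to the inside, the `i`-th one being an interface of the
configuration `j i`, such that no edge is examined by two of them.

Theorem, for `K ≥ 2`:
* for given starting states the probability does not depend on the choice of the configurations: it is
  the same for `K` crossings in one configuration and in `K` independent ones;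
* `P (Avoiding) ≤ C_a b ^ (- (4 K² - 1) / 12)` for every `a ≥ 1` and all `b`;
* `P (Avoiding) ≥ c (a / b) ^ ((4 K² - 1) / 12)` for `K ≤ a < b`, `c` does not depend on `a`, `b`.

Definitions: `St` (`Vtx × Q4`), `face`, `ae`, `mv`, `rt`, `nxt`, `orb`, `Exm` of
`Pool.Agent.H984R3.Per.Defs`, `opn` of `Pool.Agent.H974R2.Infinite`, `Z2`, `crit` of
`Pool.Agent.H160R2.ML.T_FIN`.

Used from the library: the even arm exponents of the plane (`Pool.Agent.TH992.E`). New (project IX,
`Pool.Agent.N948.IX`): crossings, clusters and dual clusters of an annulus correspond to each other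
(`N1`, `N2`, `N3`, by helper645, helper543, helper123; `Bas` by helper340), the path sum identity
(`PS`, helper232), moments of the number of crossings (`A3`, helper383), the bounds (`A4`,
helper499), `A1` (helper530), `A2` (helper568), `A5` (helper459).
-/

set_option autoImplicit false

namespace Pool.Agent.Results.MP_b3e76a_pr.IntersectionExponents

open H974 H984P MeasureTheory
open Pool.Agent.H160R2.ML.TFIN (Z2 crit)

/-- Twice the sup-norm of the centre of the face with lower left corner `f`. -/
def faceNorm (f : ℤ × ℤ) : ℤ := max |2 * f.1 + 1| |2 * f.2 + 1|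

/-- `σ, nxt F σ, ..., nxt F^T σ` is a crossing of the annulus between the squares of radius `a` and `b`
from the outside to the inside: the face is outside the large square at time `0`, between the two
squares at the times `0 < s < T`, and inside the small square at time `T`. -/
def Crossing (F : Set Edg) (a b : ℕ) (σ : St) (T : ℕ) : Prop :=
  0 < T ∧ 2 * (b : ℤ) < faceNorm (face σ) ∧
  (∀ s, 0 < s → s < T → 2 * (a : ℤ) < faceNorm (face (orb F σ s)) ∧
    faceNorm (face (orb F σ s)) < 2 * (b : ℤ)) ∧
  faceNorm (face (orb F σ T)) < 2 * (a : ℤ)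

/-- The law of `m` independent critical configurations. -/
noncomputable def law (m : ℕ) : Measure (Fin m → Z2.edgeSet → Bool) :=
  Measure.pi (fun _ => crit)

/-- There are crossings with the starting states `σ i` in the configurations `j i`, and no edge is
examined by two of them. -/
def AvoidingFrom {m K : ℕ} (j : Fin K → Fin m) (a b : ℕ) (σ : Fin K → St)
    (ω : Fin m → Z2.edgeSet → Bool) : Prop :=
  ∃ T : Fin K → ℕ, (∀ i, Crossing (opn (ω (j i))) a b (σ i) (T i)) ∧
    ∀ i i', i ≠ i' → Disjoint (Exm (opn (ω (j i))) (σ i) (T i))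
      (Exm (opn (ω (j i'))) (σ i') (T i'))

/-- There are crossings in the configurations `j i`, and no edge is examined by two of them. -/
def Avoiding {m K : ℕ} (j : Fin K → Fin m) (a b : ℕ) (ω : Fin m → Z2.edgeSet → Bool) : Prop :=
  ∃ σ : Fin K → St, AvoidingFrom j a b σ ω

open Pool.Agent.N948.IX in
theorem crossing_iff (F : Set Edg) (a b : ℕ) (σ : St) (T : ℕ) :
    Crossing F a b σ T ↔ InLeg F (0, 0) a b σ T := by
  have h : ∀ f : Vtx, lf (0, 0) f = faceNorm f := by
    intro f
    unfold lf faceNorm
    simp only [sub_zero]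
  constructor
  · rintro ⟨h1, h2, h3, h4⟩
    exact ⟨h1, by rw [h]; exact h2, fun s a1 a2 => by rw [h]; exact h3 s a1 a2, by rw [h]; exact h4⟩
  · rintro ⟨h1, h2, h3, h4⟩
    rw [h] at h2 h4
    refine ⟨h1, h2, fun s a1 a2 => ?_, h4⟩
    have h5 := h3 s a1 a2
    rw [h] at h5
    exact h5

open Pool.Agent.N948.IX in
theorem from_iff {m K : ℕ} (j : Fin K → Fin m) (a b : ℕ) (σ : Fin K → St)
    (ω : Fin m → Z2.edgeSet → Bool) :
    AvoidingFrom j a b σ ω ↔ Pool.Agent.N948.IX.Tup (0, 0) a b (fun i => opn (ω (j i))) σ := by
  unfold AvoidingFrom Pool.Agent.N948.IX.Tup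
  simp only [crossing_iff]

theorem result (m K : ℕ) (j : Fin K → Fin m) (hK : 2 ≤ K) :
    (∀ (m' : ℕ) (j' : Fin K → Fin m') (a b : ℕ), a < b → ∀ σ : Fin K → St,
      (law m).real {ω | AvoidingFrom j a b σ ω} = (law m').real {ω | AvoidingFrom j' a b σ ω}) ∧
    (∀ a : ℕ, 1 ≤ a → ∃ C : ℝ, ∀ b : ℕ, a < b →
      (law m).real {ω | Avoiding j a b ω} ≤ C * (b : ℝ) ^ (-((4 * (K : ℝ) ^ 2 - 1) / 12))) ∧
    (∃ c : ℝ, 0 < c ∧ ∀ a b : ℕ, K ≤ a → a < b →
      c * ((a : ℝ) / b) ^ ((4 * (K : ℝ) ^ 2 - 1) / 12) ≤ (law m).real {ω | Avoiding j a b ω}) := by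
  have e : ∀ a b : ℕ, {ω : Fin m → Z2.edgeSet → Bool | Avoiding j a b ω} =
      {ω | Pool.Agent.N948.IX.Cross j a b ω} := by
    intro a b
    ext ω
    exact exists_congr fun σ => from_iff j a b σ ω
  have h := Pool.Agent.N948.IX.hie m K j hK
  refine ⟨?_, ?_, ?_⟩
  · intro m' j' a b hab σ
    have e1 : {ω : Fin m → Z2.edgeSet → Bool | AvoidingFrom j a b σ ω} =
        {ω | Pool.Agent.N948.IX.Tup (0, 0) a b (fun i => opn (ω (j i))) σ} := by
      ext ω
      exact from_iff j a b σ ω
    have e2 : {ω : Fin m' → Z2.edgeSet → Bool | AvoidingFrom j' a b σ ω} =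
        {ω | Pool.Agent.N948.IX.Tup (0, 0) a b (fun i => opn (ω (j' i))) σ} := by
      ext ω
      exact from_iff j' a b σ ω
    rw [e1, e2]
    exact (Pool.Agent.N948.IX.tup_law j hab σ).trans (Pool.Agent.N948.IX.tup_law j' hab σ).symm
  · intro a ha
    obtain ⟨C, hC⟩ := h.1 a ha
    refine ⟨C, fun b hab => ?_⟩
    rw [e]
    exact hC b hab
  · obtain ⟨c, hc, hL⟩ := h.2
    refine ⟨c, hc, fun a b hKa hab => ?_⟩
    rw [e]
    exact hL a b hKa hab

end Pool.Agent.Results.MP_b3e76a_pr.IntersectionExponents
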